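import Pool.Agent.BEQ.Stmts

set_option autoImplicit false

/-! # Row UNM of squad BEQ: the order -/

namespace Pool.Agent.BEQ.H46

open Set Filter Topology MeasureTheory
open scoped InnerProductSpace ENNReal
open Pool.Agent Pool.Agent.BE01 Pool.Agent.BEL Pool.Agent.BEH Pool.Agent.BEG

noncomputable section

theorem unm (egk : Pool.Agent.BEH.EgkStmt) (smd : Pool.Agent.BEH.SmdStmt)
    (std : Pool.Agent.BEH.StdStmt) (pow : Pool.Agent.BEH.PowStmt) : UnmStmt := by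
  classical
  intro d hd2 huni D P B hD
  have hd0 : 0 < d := by omega
  obtain ⟨C, hC, hstd⟩ := std d hd0
  obtain ⟨V, hV⟩ : ∃ V : ℝ, V = volume.real D + 1 := ⟨_, rfl⟩
  have hVD : 0 ≤ volume.real D := measureReal_nonneg
  have hV0 : 0 < V := by linarith
  have hd4 : (0 : ℝ) ≤ (d : ℝ) / 4 := by positivity
  obtain ⟨B₁, hB₁⟩ : ∃ B₁ : ℝ, B₁ = max B (C * B ^ ((d : ℝ) / 4)) := ⟨_, rfl⟩
  have hex : ∀ p : ℕ, ∃ M : ℕ, 1 ≤ p → ∀ Ω' : Set (En d), Dom Ω' → Ω' ⊆ D →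
      ∀ (l : ℝ) (φ : Lp ℝ 2 (mu Ω')),
      0 < l → l ≤ B₁ → ‖φ‖ = 1 → (∀ᵐ y ∂(mu Ω'), |φ y| ≤ B₁) →
      (V ^ p)⁻¹ ≤ ∫ y, φ y ^ (2 * p + 2) ∂(mu Ω') →
      IsEig Ω' l φ → (∀ u, IsEig Ω' l u → ∃ c : ℝ, u = c • φ) →
      (∀ n : ℕ, Odd n → 3 ≤ n → n ≤ M → ∀ u, IsEig Ω' ((n : ℝ) ^ 2 * l) u → u = 0) →
      Rt Ω' 1 ((2 * p : ℕ) : ℝ) := by
    intro p
    by_cases hp : 1 ≤ p
    · obtain ⟨M, hM⟩ := huni D p 1 B₁ (V ^ p)⁻¹ hD hp one_pos (inv_pos.2 (pow_pos hV0 p))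
      exact ⟨M, fun _ => hM⟩
    · exact ⟨0, fun h => absurd h hp⟩
  choose Mp hMp using hex
  refine ⟨(Finset.range (P + 1)).sup Mp, ?_⟩
  intro Ω ι b e om hok hconn hsub hB hN p hp hpP
  have hΩ : Dom Ω := hok.dom
  have hspec := hok.spec
  have hpos := hspec.pos
  have hle : Mp p ≤ (Finset.range (P + 1)).sup Mp :=
    Finset.le_sup (f := Mp) (Finset.mem_range.2 (by omega))
  have hsimple := smd d Ω ι b e om hd2 hok hconn
  obtain ⟨hE1, hE2, hE3⟩ := egk d Ω ι b e om hok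
  have hnorm : ‖b 0‖ = 1 := b.orthonormal.1 0
  have hl0 : 0 < om 0 ^ 2 := pow_pos (hpos 0) 2
  have hlB : om 0 ^ 2 ≤ B₁ := by
    rw [hB₁]
    exact hB.trans (le_max_left _ _)
  have hbd : ∀ᵐ y ∂(mu Ω), |b 0 y| ≤ B₁ := by
    filter_upwards [hstd Ω ι b e om hok _ _ (hE1 0)] with y hy
    refine hy.trans ?_
    rw [hnorm, mul_one, abs_of_nonneg hl0.le, hB₁]
    refine le_trans ?_ (le_max_right _ _)
    exact mul_le_mul_of_nonneg_left (Real.rpow_le_rpow hl0.le hB hd4) hC.le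
  have hVle : volume.real Ω ≤ V := by
    have h1 : volume.real Ω ≤ volume.real D :=
      measureReal_mono hsub hD.2.1.measure_lt_top.ne
    rw [hV]
    linarith
  have hpw := pow d Ω p B₁ V (b 0) hΩ hbd hnorm hVle
  have hVp : 0 < V ^ p := pow_pos hV0 p
  have hβ : (V ^ p)⁻¹ ≤ ∫ y, b 0 y ^ (2 * p + 2) ∂(mu Ω) := by
    rw [inv_eq_one_div, div_le_iff₀ hVp, mul_comm]
    exact hpw
  refine hMp p hp Ω hΩ hsub (om 0 ^ 2) (b 0) hl0 hlB hnorm hbd hβ (hE1 0) (hE3 hsimple) ?_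
  intro n ho hn3 hnM u hu
  by_contra hu0
  obtain ⟨k, hk⟩ := hE2 _ u hu hu0
  exact hN n ho hn3 (hnM.trans hle) k hk

end

end Pool.Agent.BEQ.H46
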